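import Mathlib
import Pool.Graph.R_seed8.TH107.Final

/-!
# Dual Artin groups: the canonical isomorphism and lifts of reflection factorisations

For every Coxeter group of finite rank and every Coxeter element `w` the *canonical* map from the
Artin group to the dual Artin group (which sends each standard generator to the generator given by
the same simple reflection) is an isomorphism.  It gives lifts of the elements below `w` to the
Artin group: reflections below `w` lift to conjugates of standard generators, and every shortest
factorisation of `w` into reflections lifts to a factorisation of the same element of the Artin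
group.
-/

set_option autoImplicit false

namespace Pool.Agent.Results.MP_d5a4a4_al.CanonicalIso

/-! ### Definitions used in the statement -/

/-- `w` is the product of all simple reflections, each taken once, in the order given by `σ` -/
def coxeterElement {n : ℕ} (M : CoxeterMatrix (Fin n)) (σ : Equiv.Perm (Fin n)) : M.Group :=
  ((List.finRange n).map (fun k => M.simple (σ k))).prod

/-- the absolute order: `a ≤ c` if a shortest factorisation of `c` into reflections starts with a
factorisation of `a` -/
def AbsLe {n : ℕ} (M : CoxeterMatrix (Fin n)) (a c : M.Group) : Prop :=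
  ∃ l₁ l₂ : List M.Group,
    (∀ t ∈ l₁ ++ l₂, M.toCoxeterSystem.IsReflection t) ∧
    l₁.prod = a ∧ (l₁ ++ l₂).prod = c ∧
    ∀ l : List M.Group, (∀ t ∈ l, M.toCoxeterSystem.IsReflection t) →
      l.prod = c → (l₁ ++ l₂).length ≤ l.length

/-- the Artin group: one generator for each simple reflection and the braid relations -/
abbrev ArtinGroup {n : ℕ} (M : CoxeterMatrix (Fin n)) : Type :=
  PresentedGroup (Set.range (fun p : Fin n × Fin n =>
    ((List.range (M p.1 p.2)).map
        (fun t => if Even t then FreeGroup.of p.1 else FreeGroup.of p.2)).prod *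
    (((List.range (M p.1 p.2)).map
        (fun t => if Even t then FreeGroup.of p.2 else FreeGroup.of p.1)).prod)⁻¹))

/-- the dual Artin group of `w`: a generator `[u]` for each `u ≤ w` (the other generators are
killed) and the relations `[a] [a⁻¹ c] = [c]` for `a ≤ c ≤ w` -/
abbrev DualArtinGroup {n : ℕ} (M : CoxeterMatrix (Fin n)) (w : M.Group) : Type :=
  PresentedGroup
    ({r : FreeGroup M.Group | ∃ a c : M.Group, AbsLe M a c ∧ AbsLe M c w ∧
        r = FreeGroup.of a * FreeGroup.of (a⁻¹ * c) * (FreeGroup.of c)⁻¹} ∪
     {r : FreeGroup M.Group | ∃ u : M.Group, ¬ AbsLe M u w ∧ r = FreeGroup.of u})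

/-- the standard generators of the Artin group -/
def gen {n : ℕ} (M : CoxeterMatrix (Fin n)) (i : Fin n) : ArtinGroup M := PresentedGroup.of i

/-- the generators `[u]` of the dual Artin group -/
def dgen {n : ℕ} (M : CoxeterMatrix (Fin n)) (w : M.Group) (u : M.Group) : DualArtinGroup M w :=
  PresentedGroup.of u

/-! ### Proofs -/

open Pool.Agent.TH107 Pool.Agent.Helper741 CoxeterSystem

section general

variable {B : Type*} {M : CoxeterMatrix B} [Fintype B] [DecidableEq B]
variable {W : Type*} [Group W] {cs : CoxeterSystem M W}
variable {leT : W → W → Prop} (hle : IsLe cs leT) {l : List B} (hl : l.Nodup)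
variable (hall : ∀ i, i ∈ l)
variable {L : Bil B} (hL : Adapted M L l)

include hle hl hall hL in
/-- the isomorphism is the canonical one -/
theorem iso_canonical : ∃ e : Artin M ≃* PresentedGroup (Rels leT (cs.wordProd l)),
    ∀ i, e (Artin.gen M i) = qq leT (cs.wordProd l) (cs.simple i) := by
  refine ⟨MonoidHom.toMulEquiv (phi hle hl hall) (psi hle hl hL) ?_ ?_, ?_⟩
  · apply Artin.hom_ext
    intro i
    rw [MonoidHom.comp_apply, phi_gen, psi_qq, MonoidHom.id_apply]
    have h0 : Fac cs l (l.map cs.simple) := ⟨simple_refls l, rfl, by simp⟩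
    obtain ⟨A, C, h1⟩ := List.append_of_mem (hall i)
    have h2 : Fac cs l ([cs.simple i] ++ ((A.map cs.simple).map
        (fun x => (cs.simple i)⁻¹ * x * cs.simple i) ++ C.map cs.simple)) := by
      have e : l.map cs.simple = A.map cs.simple ++ cs.simple i :: C.map cs.simple := by
        conv_lhs => rw [h1]
        simp
      rw [e] at h0
      apply h0.hur
      have := (hur_move2 (A.map cs.simple) (cs.simple i)).right (C.map cs.simple)
      simpa using this
    have h3 := TT_eq hL h2
    simp only [List.prod_cons, List.prod_nil, mul_one, List.map_cons, List.map_nil] at h3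
    rw [h3, tl_simple hL.sym]
  · apply PresentedGroup.ext
    intro u
    change (phi hle hl hall) ((psi hle hl hL) (qq leT (cs.wordProd l) u)) =
      qq leT (cs.wordProd l) u
    rw [psi_qq]
    by_cases h : leT u (cs.wordProd l)
    · obtain ⟨A, C, h1, rfl⟩ := fac_of_le hle hl h
      rw [TT_eq hL h1, map_list_prod, List.map_map, ← qq_prod hle hl A C h1]
      congr 1
      apply List.map_congr_left
      intro t ht
      exact phi_tl_fac hle hl hall hL h1 t (by simp [ht])
    · rw [qq_not h, TT, dif_neg, map_one]
      rintro ⟨A, C, h2, rfl⟩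
      exact h (le_of_fac hle hl h2)
  · intro i
    exact phi_gen hle hl hall i

include hle hl in
/-- in the interval group the members of a shortest factorisation are conjugates of simple
generators -/
theorem conj_of_hur {f f' : List W} (hH : Hur f f') (h : Fac cs l f)
    (hf : ∀ t ∈ f, ∃ (g : PresentedGroup (Rels leT (cs.wordProd l))) (i : B),
      qq leT (cs.wordProd l) t = g * qq leT (cs.wordProd l) (cs.simple i) * g⁻¹) :
    ∀ t ∈ f', ∃ (g : PresentedGroup (Rels leT (cs.wordProd l))) (i : B),
      qq leT (cs.wordProd l) t = g * qq leT (cs.wordProd l) (cs.simple i) * g⁻¹ := by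
  induction hH with
  | refl => exact hf
  | tail h1 h2 ih =>
    have hfac := h.hur h1
    clear h1 hf h
    have key : ∀ (t r : W) (g : List W), Fac cs l (t :: r :: g) →
        qq leT (cs.wordProd l) t * qq leT (cs.wordProd l) r =
          qq leT (cs.wordProd l) (t * r * t⁻¹) * qq leT (cs.wordProd l) t := by
      intro t r g hg
      have hg2 := hg.hur (hur_fwd t r g)
      rw [qq_pair hle hl hg, qq_pair hle hl hg2]
      congr 1; group
    cases h2 with
    | fwd a b t r =>
      obtain ⟨g, hg⟩ := hfac.front
      have hk := key t r g hg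
      intro x hx
      simp only [List.mem_append, List.mem_cons] at hx
      rcases hx with hx | rfl | rfl | hx
      · exact ih x (by simp [hx])
      · obtain ⟨g', i, h3⟩ := ih r (by simp)
        refine ⟨qq leT (cs.wordProd l) t * g', i, ?_⟩
        rw [eq_mul_inv_of_mul_eq hk.symm, h3]
        group
      · exact ih x (by simp)
      · exact ih x (by simp [hx])
    | bwd a b t r =>
      have hf' := hfac.hur (Hur.of_step (HStep.bwd a b t r))
      obtain ⟨g, hg⟩ := hf'.front
      have hk := key t r g hg
      intro x hx
      simp only [List.mem_append, List.mem_cons] at hx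
      rcases hx with hx | rfl | rfl | hx
      · exact ih x (by simp [hx])
      · exact ih x (by simp)
      · obtain ⟨g', i, h3⟩ := ih (t * x * t⁻¹) (by simp)
        refine ⟨(qq leT (cs.wordProd l) t)⁻¹ * g', i, ?_⟩
        rw [eq_inv_mul_of_mul_eq hk, h3]
        group
      · exact ih x (by simp [hx])

include hle hl in
/-- reflections below the Coxeter element give conjugates of simple generators -/
theorem conj_refl {t : W} (ht : cs.IsReflection t) (hlt : leT t (cs.wordProd l)) :
    ∃ (g : PresentedGroup (Rels leT (cs.wordProd l))) (i : B),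
      qq leT (cs.wordProd l) t = g * qq leT (cs.wordProd l) (cs.simple i) * g⁻¹ := by
  obtain ⟨A, C, h1, h2⟩ := fac_of_le hle hl hlt
  have hA : 1 ≤ A.length := by
    rcases A with _ | ⟨a, A⟩
    · simp only [List.prod_nil] at h2
      have h3 := ht.odd_length
      rw [← h2, cs.length_one] at h3
      simp at h3
    · simp
  have h3 : Fac cs l ([t] ++ C) := h1.replace hl (A' := [t]) (by simpa using ht)
    (by simpa using h2.symm) (by simpa using hA)
  have h0 : Fac cs l (l.map cs.simple) := ⟨simple_refls l, rfl, by simp⟩
  refine conj_of_hur hle hl (h3.to_simple hl).symm h0 ?_ t (by simp)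
  intro x hx
  obtain ⟨i, -, rfl⟩ := List.mem_map.1 hx
  exact ⟨1, i, by simp⟩

include hle hl in
/-- the projection from the interval group to the Coxeter group -/
theorem exists_proj : ∃ π : PresentedGroup (Rels leT (cs.wordProd l)) →* W,
    ∀ u, leT u (cs.wordProd l) → π (qq leT (cs.wordProd l) u) = u := by
  classical
  refine ⟨PresentedGroup.toGroup (f := fun u => if leT u (cs.wordProd l) then u else 1) ?_, ?_⟩
  · rintro r (⟨a, c, h1, h2, rfl⟩ | ⟨u, h1, rfl⟩)
    · obtain ⟨A, C, D, h3, h4, h5⟩ := fac_of_le' hle hl h1 h2
      have h6 : a⁻¹ * c = C.prod := by rw [← h4, ← h5]; simp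
      have ha : leT a (cs.wordProd l) := by
        rw [← h4]
        exact le_of_fac hle hl (A := A) (C := C ++ D) (by simpa using h3)
      have hac : leT (a⁻¹ * c) (cs.wordProd l) := by
        obtain ⟨A', hA'⟩ := hur_swap A C
        have h7 : Fac cs l (C ++ (A' ++ D)) := by
          apply h3.hur
          have := hA'.right D
          simpa using this
        rw [h6]
        exact le_of_fac hle hl h7
      rw [map_mul, map_mul, map_inv, FreeGroup.lift_apply_of, FreeGroup.lift_apply_of,
        FreeGroup.lift_apply_of, if_pos ha, if_pos hac, if_pos h2]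
      group
    · rw [FreeGroup.lift_apply_of, if_neg h1]
  · intro u hu
    unfold qq
    rw [PresentedGroup.toGroup.of, if_pos hu]

include hle hl hall in
/-- simple reflections are below the Coxeter element -/
theorem simple_le (i : B) : leT (cs.simple i) (cs.wordProd l) := by
  have h0 : Fac cs l (l.map cs.simple) := ⟨simple_refls l, rfl, by simp⟩
  obtain ⟨A, C, h1⟩ := List.append_of_mem (hall i)
  have h2 : Fac cs l ([cs.simple i] ++ ((A.map cs.simple).map
      (fun x => (cs.simple i)⁻¹ * x * cs.simple i) ++ C.map cs.simple)) := by
    have e : l.map cs.simple = A.map cs.simple ++ cs.simple i :: C.map cs.simple := by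
      conv_lhs => rw [h1]
      simp
    rw [e] at h0
    apply h0.hur
    have := (hur_move2 (A.map cs.simple) (cs.simple i)).right (C.map cs.simple)
    simpa using this
  have h3 := le_of_fac hle hl h2
  simpa using h3

include hle hl hall hL in
/-- the general form of the theorem -/
theorem main_general : ∃ e : Artin M ≃* PresentedGroup (Rels leT (cs.wordProd l)),
    (∀ i, e (Artin.gen M i) = qq leT (cs.wordProd l) (cs.simple i)) ∧
    ∃ lift : W → Artin M,
      (∀ u, e (lift u) = qq leT (cs.wordProd l) u) ∧
      (∀ i, lift (cs.simple i) = Artin.gen M i) ∧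
      (∃ p : Artin M →* W, (∀ i, p (Artin.gen M i) = cs.simple i) ∧
        ∀ u, leT u (cs.wordProd l) → p (lift u) = u) ∧
      (∀ t, cs.IsReflection t → leT t (cs.wordProd l) →
        ∃ g i, lift t = g * Artin.gen M i * g⁻¹) ∧
      (∀ f : List W, (∀ t ∈ f, cs.IsReflection t) → f.prod = cs.wordProd l →
        f.length = l.length → (f.map lift).prod = (l.map (Artin.gen M)).prod) := by
  obtain ⟨e, he⟩ := iso_canonical hle hl hall hL
  obtain ⟨π, hπ⟩ := exists_proj hle hl
  refine ⟨e, he, fun u => e.symm (qq leT (cs.wordProd l) u), fun u => e.apply_symm_apply _,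
    fun i => ?_, ⟨π.comp e.toMonoidHom, fun i => ?_, fun u hu => ?_⟩, fun t ht htw => ?_,
    fun f hf hfw hfn => ?_⟩
  · show e.symm _ = _
    rw [MulEquiv.symm_apply_eq, he]
  · show π (e (Artin.gen M i)) = cs.simple i
    rw [he]
    exact hπ _ (simple_le hle hl hall i)
  · show π (e (e.symm (qq leT (cs.wordProd l) u))) = u
    rw [e.apply_symm_apply]
    exact hπ u hu
  · obtain ⟨g, i, h⟩ := conj_refl hle hl ht htw
    refine ⟨e.symm g, i, ?_⟩
    show e.symm _ = _
    rw [MulEquiv.symm_apply_eq, map_mul, map_mul, map_inv, e.apply_symm_apply, he]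
    exact h
  · have h1 : Fac cs l f := ⟨hf, hfw, hfn⟩
    have h0 : Fac cs l (l.map cs.simple) := ⟨simple_refls _, rfl, by simp⟩
    have h2 := qq_prod hle hl f [] (by simpa using h1)
    have h3 := qq_prod hle hl _ [] (by simpa using h0)
    apply e.injective
    rw [map_list_prod, map_list_prod, List.map_map, List.map_map]
    have e1 : (⇑e ∘ fun u => e.symm (qq leT (cs.wordProd l) u)) = qq leT (cs.wordProd l) := by
      funext u
      exact e.apply_symm_apply _
    have e2 : (⇑e ∘ Artin.gen M) = qq leT (cs.wordProd l) ∘ cs.simple := by
      funext i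
      exact he i
    rw [e1, e2, h2, ← List.map_map, h3, h1.2.1, h0.2.1]

end general

/-- the canonical projection of the Artin group to the Coxeter group is determined by
`gen i ↦ s_i`; this is the statement that `p` is that projection -/
def IsCanonicalProjection {n : ℕ} (M : CoxeterMatrix (Fin n)) (p : ArtinGroup M →* M.Group) :
    Prop := ∀ i, p (gen M i) = M.simple i

/-- **Dual Artin groups are Artin groups, canonically.**  Let `w` be a Coxeter element of a Coxeter
group of finite rank.  The canonical map `gen i ↦ [s_i]` is an isomorphism `e` from the Artin group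
to the dual Artin group of `w`.  With `lift u = e⁻¹ [u]` one gets a map to the Artin group such
that: `lift u` projects to `u` for every `u ≤ w` (so the generators `[u]`, `u ≤ w`, of the dual
Artin group are pairwise different); for every reflection `t ≤ w` the element `lift t` is conjugate
to a standard generator; and every factorisation of `w` into `n` reflections lifts to a
factorisation of the product of the standard generators in the given order. -/
theorem result (n : ℕ) (M : CoxeterMatrix (Fin n)) (σ : Equiv.Perm (Fin n)) :
    ∃ e : ArtinGroup M ≃* DualArtinGroup M (coxeterElement M σ),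
      (∀ i, e (gen M i) = dgen M _ (M.simple i)) ∧
      ∃ lift : M.Group → ArtinGroup M,
        (∀ u, e (lift u) = dgen M _ u) ∧
        (∀ i, lift (M.simple i) = gen M i) ∧
        (∃ p : ArtinGroup M →* M.Group, IsCanonicalProjection M p ∧
          ∀ u, AbsLe M u (coxeterElement M σ) → p (lift u) = u) ∧
        (∀ t, M.toCoxeterSystem.IsReflection t → AbsLe M t (coxeterElement M σ) →
          ∃ g i, lift t = g * gen M i * g⁻¹) ∧
        (∀ f : List M.Group, (∀ t ∈ f, M.toCoxeterSystem.IsReflection t) →
          f.prod = coxeterElement M σ → f.length = n →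
            (f.map lift).prod = ((List.finRange n).map (fun k => gen M (σ k))).prod) := by
  classical
  have hl : ((List.finRange n).map σ).Nodup := (List.nodup_finRange n).map σ.injective
  have hall : ∀ i, i ∈ (List.finRange n).map σ := by
    intro i
    exact List.mem_map.mpr ⟨σ.symm i, List.mem_finRange _, by simp⟩
  have hw' : coxeterElement M σ = M.toCoxeterSystem.wordProd ((List.finRange n).map σ) := by
    unfold coxeterElement CoxeterSystem.wordProd
    rw [List.map_map]
    rfl
  have hlo : ((List.finRange n).map σ).Pairwise
      (fun i j => ((σ.symm i : Fin n) : ℕ) < ((σ.symm j : Fin n) : ℕ)) := by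
    rw [List.pairwise_map]
    refine (List.pairwise_lt_finRange n).imp ?_
    intro a b hab
    simpa using hab
  obtain ⟨L, hL⟩ := exists_adapted (M := M) _ hl (fun i => ((σ.symm i : Fin n) : ℕ))
    (fun a b h => σ.symm.injective (Fin.ext h)) hlo
  have hle : IsLe M.toCoxeterSystem (AbsLe M) := fun a c => Iff.rfl
  rw [hw']
  obtain ⟨e, he, lift, h1, h2, ⟨p, hp, hp2⟩, h3, h4⟩ :=
    main_general (cs := M.toCoxeterSystem) hle hl hall hL
  refine ⟨e, he, lift, h1, h2, ⟨p, hp, hp2⟩, h3, fun f hf hfw hfn => ?_⟩
  have h5 := h4 f hf hfw (by simp [hfn])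
  rw [List.map_map] at h5
  exact h5

end Pool.Agent.Results.MP_d5a4a4_al.CanonicalIso
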